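import Mathlib

set_option autoImplicit false
open scoped Pointwise Classical
open Finset

namespace Pool.Agent.Results.MP_37447d_al.LogLoss

variable {G : Type} [Group G]

/-- the indicator condition -/
def Ind (L : G → ℝ) : Prop :=
  ∃ P : Polynomial ℝ, ∀ r : ℝ, 0 < r → ∀ S X : Finset G, (∀ s ∈ S, L s ≤ r) →
    ∑ g ∈ S * X, (#{p ∈ S ×ˢ X | p.1 * p.2 = g} : ℝ) ^ 2 ≤ P.eval r * #S * #X

/-- property RD -/
def RD (L : G → ℝ) : Prop :=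
  ∃ P : Polynomial ℝ, ∀ r : ℝ, 0 < r → ∀ (S : Finset G) (φ ψ : G → ℂ), (∀ s ∈ S, L s ≤ r) →
    (∀ s, s ∉ S → φ s = 0) → Summable (fun x => ‖ψ x‖ ^ 2) →
    Summable (fun g => ‖∑ h ∈ S, φ h * ψ (h⁻¹ * g)‖ ^ 2) ∧
    ∑' g, ‖∑ h ∈ S, φ h * ψ (h⁻¹ * g)‖ ^ 2 ≤ P.eval r * (∑ s ∈ S, ‖φ s‖ ^ 2) * ∑' x, ‖ψ x‖ ^ 2

/-- word length for a generating set -/
noncomputable def wl (T : Set G) (g : G) : ℕ :=
  sInf {n | ∃ l : List G, (∀ t ∈ l, t ∈ T ∨ t⁻¹ ∈ T) ∧ l.length = n ∧ l.prod = g}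

lemma core (S X Y : Finset G) (P : ℝ) (hP : 0 ≤ P) (K : ℕ) (hK : #S ≤ 2 ^ K) (k l : G → ℤ)
    (hk : #(S.image k) ≤ K + 2)
    (h : ∀ S' ⊆ S, ∀ X' : Finset G,
      ∑ g ∈ S' * X', (#{p ∈ S' ×ˢ X' | p.1 * p.2 = g} : ℝ) ^ 2 ≤ P * #S' * #X') :
    ∑ y ∈ Y, (∑ p ∈ S ×ˢ X with p.1 * p.2 = y, (2 : ℝ) ^ (k p.1 + l p.2)) ^ 2 ≤
      4 * (K + 2) ^ 2 * P * (∑ s ∈ S, (4 : ℝ) ^ k s) * ∑ x ∈ X, (4 : ℝ) ^ l x := by
  let I := S.image k ×ˢ X.image l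
  let n : ℤ × ℤ → G → ℝ := fun c y =>
    #{p ∈ {s ∈ S | k s = c.1} ×ˢ {x ∈ X | l x = c.2} | p.1 * p.2 = y}
  have h1 : ∀ y, (∑ p ∈ S ×ˢ X with p.1 * p.2 = y, (2 : ℝ) ^ (k p.1 + l p.2)) ^ 2 ≤
      4 * (K + 2) ^ 2 * ∑ c ∈ I, (4 : ℝ) ^ (c.1 + c.2) * n c y ^ 2 := by
    intro y
    set F := {p ∈ S ×ˢ X | p.1 * p.2 = y} with hF
    rcases F.eq_empty_or_nonempty with e | hne
    · rw [e, sum_empty, zero_pow two_ne_zero]; positivity
    obtain ⟨q, hq, hm⟩ := F.exists_max_image (fun p => k p.1 + l p.2) hne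
    obtain ⟨j, hj⟩ : ∃ j, j = k q.1 + l q.2 := ⟨_, rfl⟩
    rw [← hj] at hm
    have hF1 : #F ≤ #S := card_le_card_of_injOn Prod.fst
      (fun p hp => (mem_product.1 (mem_filter.1 hp).1).1) fun p hp p' hp' e =>
        Prod.ext e (mul_left_cancel (a := p.1) (by
          rw [(mem_filter.1 hp).2, e, (mem_filter.1 hp').2]))
    have a1 : ∑ p ∈ F with ¬ (j - K ≤ k p.1 + l p.2), (2 : ℝ) ^ (k p.1 + l p.2) ≤ 2 ^ j := by
      refine (sum_le_card_nsmul _ _ ((2 : ℝ) ^ (j - K)) fun p hp => zpow_le_zpow_right₀ (by norm_num)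
        (not_le.1 (mem_filter.1 hp).2).le).trans ?_
      have : (#{p ∈ F | ¬ (j - K ≤ k p.1 + l p.2)} : ℝ) ≤ 2 ^ K := by
        exact_mod_cast (card_filter_le _ _).trans (hF1.trans hK)
      rw [nsmul_eq_mul, zpow_sub₀ two_ne_zero, zpow_natCast, mul_div_assoc', div_le_iff₀ (by positivity),
        mul_comm]
      gcongr
    have a2 : (2 : ℝ) ^ j ≤ ∑ p ∈ F with (j - K ≤ k p.1 + l p.2), (2 : ℝ) ^ (k p.1 + l p.2) :=
      hj.symm ▸ single_le_sum (f := fun p : G × G => (2 : ℝ) ^ (k p.1 + l p.2)) (fun _ _ => by positivity)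
        (mem_filter.2 ⟨hq, by omega⟩)
    obtain ⟨I', hI⟩ : ∃ I' : Finset (ℤ × ℤ), ∀ c, c ∈ I' ↔ c ∈ I ∧ j - K ≤ c.1 + c.2 ∧ c.1 + c.2 ≤ j :=
      ⟨{c ∈ I | j - K ≤ c.1 + c.2 ∧ c.1 + c.2 ≤ j}, fun c => mem_filter⟩
    have a3 : ∑ p ∈ F with (j - K ≤ k p.1 + l p.2), (2 : ℝ) ^ (k p.1 + l p.2) ≤
        ∑ c ∈ I', (2 : ℝ) ^ (c.1 + c.2) * n c y := by
      rw [← sum_fiberwise_of_maps_to (g := fun p => (k p.1, l p.2)) (t := I') fun p hp => by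
        obtain ⟨b1, b2⟩ := mem_filter.1 hp
        obtain ⟨b3, b4⟩ := mem_product.1 (mem_filter.1 b1).1
        exact (hI _).2 ⟨mem_product.2 ⟨mem_image_of_mem _ b3, mem_image_of_mem _ b4⟩, b2, hm p b1⟩]
      refine sum_le_sum fun c _ => ?_
      refine (sum_le_card_nsmul _ _ ((2 : ℝ) ^ (c.1 + c.2)) fun p hp => by
        rw [← (mem_filter.1 hp).2]).trans ?_
      rw [nsmul_eq_mul, mul_comm]
      gcongr
      refine Nat.cast_le.2 (card_le_card fun p hp => ?_)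
      simp only [hF, mem_filter, mem_product, Prod.ext_iff] at hp ⊢
      exact ⟨⟨⟨hp.1.1.1.1, hp.2.1⟩, hp.1.1.1.2, hp.2.2⟩, hp.1.1.2⟩
    have a4 : #I' ≤ (K + 2) ^ 2 := by
      refine (card_le_card_of_injOn (t := S.image k ×ˢ Icc (j - K) j) (fun c => (c.1, c.1 + c.2))
        (fun c hc => mem_coe.2 (mem_product.2 ⟨(mem_product.1 ((hI c).1 hc).1).1,
          mem_Icc.2 ((hI c).1 hc).2⟩))
        fun c _ c' _ e => ?_).trans ?_
      · simp only [Prod.mk.injEq] at e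
        exact Prod.ext e.1 (by omega)
      · rw [card_product, Int.card_Icc, sq]
        exact Nat.mul_le_mul hk (by omega)
    have a5 := sq_sum_le_card_mul_sum_sq (s := I') (f := fun c => (2 : ℝ) ^ (c.1 + c.2) * n c y)
    have a6 : ∑ c ∈ I', ((2 : ℝ) ^ (c.1 + c.2) * n c y) ^ 2 ≤
        ∑ c ∈ I, (4 : ℝ) ^ (c.1 + c.2) * n c y ^ 2 := by
      refine (sum_le_sum_of_subset_of_nonneg (fun c hc => ((hI c).1 hc).1) fun _ _ _ => by positivity).trans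
        (le_of_eq (sum_congr rfl fun c _ => ?_))
      rw [mul_pow, sq, ← mul_zpow]; norm_num
    have a7 : (#I' : ℝ) ≤ (K + 2) ^ 2 := by exact_mod_cast a4
    rw [← sum_filter_add_sum_filter_not F fun p => j - K ≤ k p.1 + l p.2]
    have a8 := a5.trans (mul_le_mul a7 a6 (sum_nonneg fun _ _ => sq_nonneg _) (sq_nonneg _))
    have a9 := pow_le_pow_left₀ (add_nonneg (sum_nonneg fun _ _ => by positivity)
      (sum_nonneg fun _ _ => by positivity)) (add_le_add a3 (a1.trans (a2.trans a3))) 2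
    refine a9.trans ?_
    rw [← two_mul, mul_pow]
    linarith
  have h2 : ∀ c : ℤ × ℤ, ∑ y ∈ Y, n c y ^ 2 ≤ P * #{s ∈ S | k s = c.1} * #{x ∈ X | l x = c.2} := by
    intro c
    refine le_trans ?_ (h _ (filter_subset _ _) _)
    rw [← sum_filter_ne_zero Y]
    refine sum_le_sum_of_subset_of_nonneg (fun y hy => ?_) fun _ _ _ => sq_nonneg _
    replace hy := (mem_filter.1 hy).2
    obtain ⟨p, hp⟩ := card_ne_zero.1 (Nat.cast_ne_zero.1 (pow_ne_zero_iff two_ne_zero |>.1 hy))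
    obtain ⟨b1, rfl⟩ := mem_filter.1 hp
    exact mul_mem_mul (mem_product.1 b1).1 (mem_product.1 b1).2
  have h3 : ∀ (T : Finset G) (f : G → ℤ), ∑ s ∈ T, (4 : ℝ) ^ f s =
      ∑ a ∈ T.image f, (4 : ℝ) ^ a * #{s ∈ T | f s = a} := fun T f => by
    rw [sum_comp (fun a => (4 : ℝ) ^ a) f]
    exact sum_congr rfl fun _ _ => by rw [nsmul_eq_mul, mul_comm]
  refine (sum_le_sum fun y _ => h1 y).trans ?_
  rw [← mul_sum, sum_comm, h3 S, h3 X, mul_assoc _ P, mul_assoc _ (P * _), mul_assoc P,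
    sum_mul_sum, ← sum_product' (image k S), mul_sum _ _ P]
  refine mul_le_mul_of_nonneg_left (sum_le_sum fun c _ => ?_) (by positivity)
  rw [← mul_sum, zpow_add₀ four_ne_zero]
  refine (mul_le_mul_of_nonneg_left (h2 c) (by positivity)).trans (le_of_eq ?_)
  ring

lemma lev {t : ℝ} (ht : 0 < t) : t ≤ 2 ^ Int.clog 2 t ∧ (4 : ℝ) ^ Int.clog 2 t ≤ 4 * t ^ 2 := by
  have h1 : t ≤ 2 ^ Int.clog 2 t := by exact_mod_cast Int.self_le_zpow_clog (b := 2) one_lt_two t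
  have h2 : (2 : ℝ) ^ (Int.clog 2 t - 1) < t := by
    exact_mod_cast Int.zpow_pred_clog_lt_self (b := 2) one_lt_two ht
  rw [zpow_sub_one₀ two_ne_zero] at h2
  refine ⟨h1, ?_⟩
  rw [show (4 : ℝ) ^ Int.clog 2 t = 2 ^ Int.clog 2 t * 2 ^ Int.clog 2 t by rw [← mul_zpow]; norm_num]
  nlinarith

lemma fin (S Y : Finset G) (P : ℝ) (hP : 0 ≤ P) (K : ℕ) (hK : #S ≤ 2 ^ K)
    (h : ∀ S' ⊆ S, ∀ X' : Finset G,
      ∑ g ∈ S' * X', (#{p ∈ S' ×ˢ X' | p.1 * p.2 = g} : ℝ) ^ 2 ≤ P * #S' * #X')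
    (φ ψ : G → ℂ) (hψ : Summable fun x => ‖ψ x‖ ^ 2) :
    ∑ y ∈ Y, ‖∑ h ∈ S, φ h * ψ (h⁻¹ * y)‖ ^ 2 ≤
      128 * (K + 2) ^ 2 * P * (∑ s ∈ S, ‖φ s‖ ^ 2) * ∑' x, ‖ψ x‖ ^ 2 := by
  obtain ⟨N, hN⟩ : ∃ N, N = √(∑ s ∈ S, ‖φ s‖ ^ 2) := ⟨_, rfl⟩
  have hN2 : N ^ 2 = ∑ s ∈ S, ‖φ s‖ ^ 2 := by rw [hN, Real.sq_sqrt (by positivity)]
  have hle : ∀ s ∈ S, ‖φ s‖ ≤ N := fun s hs => hN ▸ Real.le_sqrt_of_sq_le
    (single_le_sum (f := fun s => ‖φ s‖ ^ 2) (fun _ _ => by positivity) hs)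
  have hT : 0 ≤ ∑' x, ‖ψ x‖ ^ 2 := tsum_nonneg fun _ => by positivity
  rcases (show 0 ≤ N from hN ▸ Real.sqrt_nonneg _).eq_or_lt with h0 | h0
  · rw [sum_eq_zero fun y _ => by
      rw [sum_eq_zero fun s hs => by rw [show φ s = 0 from norm_le_zero_iff.1 (h0 ▸ hle s hs), zero_mul]]; simp]
    positivity
  let u : G → ℝ := fun s => max ‖φ s‖ (N / 2 ^ K)
  have hu : ∀ s, 0 < u s := fun s => lt_max_of_lt_right (by positivity)
  let X := {x ∈ S⁻¹ * Y | ψ x ≠ 0}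
  have h1 := core S X Y P hP K hK (fun s => Int.clog 2 (u s)) (fun x => Int.clog 2 ‖ψ x‖) (by
    refine (card_le_card (t := Icc (Int.clog 2 N - K) (Int.clog 2 N)) fun a ha => ?_).trans
      (by rw [Int.card_Icc]; omega)
    obtain ⟨s, hs, rfl⟩ := mem_image.1 ha
    refine mem_Icc.2 ⟨?_, Int.clog_mono_right (hu s) (max_le (hle s hs)
      (div_le_self h0.le (one_le_pow₀ one_le_two)))⟩
    rw [sub_le_iff_le_add, ← Int.le_zpow_iff_clog_le one_lt_two h0]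
    push_cast
    rw [zpow_add₀ two_ne_zero, zpow_natCast, ← div_le_iff₀ (by positivity)]
    exact (le_max_right _ _).trans (lev (hu s)).1) h
  have h2 : ∑ s ∈ S, (4 : ℝ) ^ Int.clog 2 (u s) ≤ 8 * N ^ 2 := by
    refine (sum_le_sum (g := fun s => 4 * ‖φ s‖ ^ 2 + 4 * (N / 2 ^ K) ^ 2) fun s _ =>
      (lev (hu s)).2.trans ?_).trans ?_
    · rcases max_choice ‖φ s‖ (N / 2 ^ K) with e | e <;> simp only [u, e] <;> nlinarith
    · rw [sum_add_distrib, ← mul_sum, ← hN2, sum_const, nsmul_eq_mul]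
      have e1 : (#S : ℝ) ≤ 2 ^ K := by exact_mod_cast hK
      have e2 : (1 : ℝ) ≤ 2 ^ K := one_le_pow₀ one_le_two
      have e3 : (#S : ℝ) * (N / 2 ^ K) ^ 2 ≤ N ^ 2 := by
        rw [div_pow, mul_div_assoc', div_le_iff₀ (by positivity), mul_comm]
        gcongr; nlinarith
      linarith
  have h3 : ∑ x ∈ X, (4 : ℝ) ^ Int.clog 2 ‖ψ x‖ ≤ 4 * ∑' x, ‖ψ x‖ ^ 2 := by
    refine (sum_le_sum fun x hx => (lev (norm_pos_iff.2 (mem_filter.1 hx).2)).2).trans ?_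
    rw [← mul_sum]
    gcongr
    exact hψ.sum_le_tsum _ fun _ _ => by positivity
  refine (sum_le_sum fun y hy => ?_).trans (h1.trans ?_)
  · refine pow_le_pow_left₀ (norm_nonneg _) ((norm_sum_le _ _).trans ?_) 2
    rw [sum_filter, sum_product]
    refine sum_le_sum fun s hs => ?_
    by_cases e : ψ (s⁻¹ * y) = 0
    · rw [e, mul_zero, norm_zero]; exact sum_nonneg fun _ _ => by positivity
    refine le_trans ?_ (single_le_sum (a := s⁻¹ * y) (fun _ _ => by positivity)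
      (mem_filter.2 ⟨mul_mem_mul (inv_mem_inv hs) hy, e⟩))
    rw [if_pos (mul_inv_cancel_left _ _), norm_mul, zpow_add₀ two_ne_zero]
    exact mul_le_mul ((le_max_left _ _).trans (lev (hu s)).1) (lev (norm_pos_iff.2 e)).1
      (norm_nonneg _) (by positivity)
  · rw [← hN2]
    calc _ ≤ 4 * (K + 2) ^ 2 * P * (8 * N ^ 2) * (4 * ∑' x, ‖ψ x‖ ^ 2) := by gcongr
      _ = _ := by ring

lemma main (L : G → ℝ) (h0 : L 1 = 0) (Q : Polynomial ℝ)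
    (hQ : ∀ r : ℝ, 0 < r → ∀ S : Finset G, (∀ s ∈ S, L s ≤ r) → (#S : ℝ) ≤ Real.exp (Q.eval r))
    (h : Ind L) : RD L := by
  obtain ⟨P, h⟩ := h
  refine ⟨128 * (4 * Q ^ 2 + 4) ^ 2 * P, fun r hr S φ ψ hS _ hψ => ?_⟩
  have hP : 0 ≤ P.eval r := by
    have := h r hr {1} {1} (by simpa [h0] using hr.le)
    simp only [card_singleton, Nat.cast_one, mul_one] at this
    exact le_trans (sum_nonneg fun _ _ => sq_nonneg _) this
  have hK : #S ≤ 2 ^ ⌈2 * Q.eval r⌉₊ := by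
    have e1 := (hQ r hr S hS).trans (Real.exp_le_exp.2 (show Q.eval r ≤ ⌈2 * Q.eval r⌉₊ * Real.log 2 by
      have := Nat.le_ceil (2 * Q.eval r)
      have := Real.log_two_gt_d9
      nlinarith [Nat.cast_nonneg (α := ℝ) ⌈2 * Q.eval r⌉₊]))
    rw [Real.exp_nat_mul, Real.exp_log two_pos] at e1
    exact_mod_cast e1
  have hQ0 : 0 ≤ Q.eval r := by
    simpa using hQ r hr {1} (by simpa [h0] using hr.le)
  have key := fun Y => (fin S Y _ hP _ hK (fun S' hS' X' => h r hr S' X' fun s hs => hS s (hS' hs))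
    φ ψ hψ).trans (show _ ≤ (128 * (4 * Q ^ 2 + 4) ^ 2 * P).eval r * (∑ s ∈ S, ‖φ s‖ ^ 2) *
      ∑' x, ‖ψ x‖ ^ 2 by
    have : 0 ≤ ∑' x, ‖ψ x‖ ^ 2 := tsum_nonneg fun _ => by positivity
    simp only [Polynomial.eval_mul, Polynomial.eval_pow, Polynomial.eval_add, Polynomial.eval_ofNat]
    gcongr 128 * ?_ ^ 2 * _ * _ * _
    nlinarith [Nat.ceil_lt_add_one (show 0 ≤ 2 * Q.eval r by positivity), sq_nonneg (2 * Q.eval r - 1)])
  exact ⟨summable_of_sum_le (fun _ => by positivity) key,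
    Real.tsum_le_of_sum_le (fun _ => by positivity) key⟩

theorem result :
    (∀ (G : Type) [Group G] (L : G → ℝ), L 1 = 0 →
      (∃ Q : Polynomial ℝ, ∀ r : ℝ, 0 < r → ∀ S : Finset G, (∀ s ∈ S, L s ≤ r) →
        (#S : ℝ) ≤ Real.exp (Q.eval r)) → Ind L → RD L) ∧
    ∀ (G : Type) [Group G] (T : Finset G), Subgroup.closure (T : Set G) = ⊤ →
      Ind (fun g => (wl (T : Set G) g : ℝ)) → RD fun g => (wl (T : Set G) g : ℝ) := by
  refine ⟨fun G _ L h0 ⟨Q, hQ⟩ => main L h0 Q hQ, fun G _ T hT => main _ ?_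
    (Polynomial.C (#(insert 1 (T ∪ T⁻¹)) : ℝ) * Polynomial.X) fun r hr S hS => ?_⟩
  · exact Nat.cast_eq_zero.2 (Nat.sInf_eq_zero.2 (Or.inl ⟨[], by simp⟩))
  set U := insert 1 (T ∪ T⁻¹) with hU
  have h1 : ∀ (l : List G), (∀ t ∈ l, t ∈ (T : Set G) ∨ t⁻¹ ∈ (T : Set G)) →
      l.prod ∈ U ^ l.length := by
    intro l hl
    induction l with
    | nil => simp
    | cons a l ih =>
      rw [List.prod_cons, List.length_cons, pow_succ']
      refine mul_mem_mul ?_ (ih fun t ht => hl t (List.mem_cons_of_mem _ ht))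
      simpa [hU] using Or.inr (hl a List.mem_cons_self)
  have h2 : S ⊆ U ^ ⌊r⌋₊ := fun s hs => by
    obtain ⟨l, a1, a2⟩ := Submonoid.exists_list_of_mem_closure
      (show s ∈ Submonoid.closure ((T : Set G) ∪ (T : Set G)⁻¹) by
        rw [← Subgroup.closure_toSubmonoid, hT]; trivial)
    obtain ⟨l', b1, b2, b3⟩ := Nat.sInf_mem (s := {n | ∃ l : List G, (∀ t ∈ l, t ∈ (T : Set G) ∨
      t⁻¹ ∈ (T : Set G)) ∧ l.length = n ∧ l.prod = s}) ⟨_, l, a1, rfl, a2⟩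
    exact pow_subset_pow_right (mem_insert_self _ _) (b2 ▸ Nat.le_floor (hS s hs)) (b3 ▸ h1 l' b1)
  have h3 : (#S : ℝ) ≤ #U ^ ⌊r⌋₊ := by exact_mod_cast (card_le_card h2).trans card_pow_le
  refine h3.trans ((pow_le_pow_left₀ (by positivity) (show (#U : ℝ) ≤ Real.exp #U by
    linarith [Real.add_one_le_exp (#U : ℝ)]) _).trans ?_)
  rw [← Real.exp_nat_mul, Real.exp_le_exp, mul_comm]
  simp only [Polynomial.eval_mul, Polynomial.eval_C, Polynomial.eval_X]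
  gcongr
  exact Nat.floor_le hr.le

end Pool.Agent.Results.MP_37447d_al.LogLoss
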